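import Pool.Agent.H92.Krein4

set_option autoImplicit false
open MeasureTheory
open Pool.Agent.H92.KreinDefs

namespace Pool.Agent.Results.MP_f4ec25_an.NormPreserving

theorem result (A : ℝ) (hA : 0 < A) (f : ℝ → ℂ) (hf : InR (Set.Ioo (-A) A) f)
    (hm : Meas (Set.Ioo (-A) A) f) :
    ∃ g : ℝ → ℂ, (∀ x ∈ Set.Ioo (-A) A, g x = f x) ∧ Meas Set.univ g ∧ InR Set.univ g ∧
      nrm Set.univ g = nrm (Set.Ioo (-A) A) f := by
  have _ := hA
  obtain ⟨g, h1, h2, h3, h4⟩ := Pool.Agent.H92.Krein3.extend isOpen_Ioo hf hm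
  exact ⟨g, h1, h2.restrict, h3, h4⟩

end Pool.Agent.Results.MP_f4ec25_an.NormPreserving
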